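import Pool.Agent.H83.OWN.Hna

/-!
# The record does not look ahead at the velocity of one place

`mvI_ae`: at almost every index `g`, the record at `v` knows at most `e t` bits of the velocity of
the place `r₀` at the windows `w ≤ v ≤ o` of the box, given its digits which are seen at `v`.
`mv_box`: from the indices to real windows of `G`, real numbers of digits. `mv_ae`: almost every
`g`, all parameters at once, every side information which is a function of the near path of the base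
and of `Z` and which knows the near path.
-/

set_option autoImplicit false

namespace Pool.VF91

open Finset Real MvPolynomial MeasureTheory Filter
open Pool.Agent.H49.Ent Pool.Agent.H32.Dense Pool.STK Pool.KA Pool.KSAT Pool.K2S Pool.PB Pool.S6C
  Pool.GEN Pool.RCD Pool.LA91 Pool.AVG96 Pool.OWN83
open Pool.KVA (MI)
open Pool.AVG71 (MI_eq MI_eq')

variable {m : ℕ} {U₀ U U' U₁ U₂ V : Type} {α γ : ∀ J : ℕ, Fam m J → Type}
  {f : ∀ (J : ℕ) (F : Fam m J), F.Ω → α J F} {y : ∀ (J : ℕ) (F : Fam m J), F.Ω → γ J F}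
  {S : PCl m} {c : ℕ → Fin m} {r₀ r : ℕ} {s A B Λ : ℝ} {wh : ℚ → ℝ} {sc : ℚ → ℕ → ℝ}
  {PA : ℚ → Prop} {sn : ℝ → ℕ → ℝ} {G : Set ℝ}

/-- No condition. -/
theorem mir_mis {w v : ℚ} {Q : Qt m U} {Q₁ : Qt m U₁} {ε : ℝ}
    (hpos : ∀ (τ : ℝ) (J : ℕ) (F : Fam m J) (A : F.Ω → Prop), S.St τ J F A → 0 < Pe F.p A)
    (h : MIr S f y s w v (Qt.fn fun _ _ _ => ()) Q Q₁ ε) : MIs S f y s w v Q Q₁ ε := by
  intro c hc
  obtain ⟨k, hk, e, he, H⟩ := h c hc
  refine ⟨k, hk, e, he, fun K => Bas.mono 0 ((H K).and (pos_bas hpos)) ?_⟩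
  rintro J - F A' ⟨H, hA⟩ V₁ V₂ z zv hz hzv a n ha hn
  have hp := (isLaw_cond F.isLaw hA).nonneg
  have h1 := H V₁ V₂ z zv hz hzv (fun _ => ()) a n (fun _ _ => rfl) ha hn
  rw [MI_eq' hp] at h1 ⊢
  have e1 : CH (Pool.Agent.H49.Ent.cond F.p A' True) a (fun ω => (n ω, (z ω, y J F ω))) ≤
      CH (Pool.Agent.H49.Ent.cond F.p A' True) a (fun ω => (n ω, ((), (z ω, y J F ω)))) :=
    CH_mono_cond hp fun ω ω' _ _ hh => by
      simp only [Prod.mk.injEq] at hh ⊢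
      exact ⟨hh.1, trivial, hh.2.1, hh.2.2⟩
  have e2 : CH (Pool.Agent.H49.Ent.cond F.p A' True) a
      (fun ω => (zv ω, (n ω, ((), (z ω, y J F ω))))) ≤
      CH (Pool.Agent.H49.Ent.cond F.p A' True) a (fun ω => (zv ω, (n ω, (z ω, y J F ω)))) :=
    CH_mono_cond hp fun ω ω' _ _ hh => by
      simp only [Prod.mk.injEq] at hh ⊢
      exact ⟨hh.1, hh.2.1, hh.2.2.2⟩
  linarith

/-- **The conclusion at the indices.** -/
def MvI (S : PCl m) (f : ∀ (J : ℕ) (F : Fam m J), F.Ω → α J F)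
    (y : ∀ (J : ℕ) (F : Fam m J), F.Ω → γ J F) (c : ℕ → Fin m) (r₀ : ℕ) (s : ℝ)
    (wh : ℚ → ℝ) (sc : ℚ → ℕ → ℝ) (g : ℝ) : Prop :=
  ∀ e : ℝ, 0 < e → ∃ ρ : ℝ, 0 < ρ ∧ ∀ t : ℝ, 0 < t → t < ρ → ∀ w v o : ℚ, g - t ≤ w → w ≤ v →
    v ≤ o → (o : ℝ) ≤ g + t →
    MIs S f y s w v (fam m c r₀ 1 wh sc w o) (fam m c r₀ 1 wh sc w v) (e * t)

/-- **Rational indices**: almost every `g`. -/
theorem mvI_ae (h : ∀ A' : ℚ, PA A' → NCh S f y c r₀ r s A' B Λ wh sc)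
    (hP : ∀ p q : ℚ, PA p → p ≤ q → PA q)
    (hn : VNum S f y c r₀ s PA B Λ wh sc (Qt.fn fun _ _ _ => ())) (hr : r₀ ≤ r) :
    ∀ᵐ g : ℝ, ∀ A : ℚ, PA A → g ∈ Set.Ioo (A : ℝ) B → ∀ P Sl : ℝ, 1 < Sl →
      SlP (fun q => sc q r₀) g P Sl → MvI S f y c r₀ s wh sc g := by
  have key : ∀ᵐ g : ℝ, ∀ A' B' : ℚ, PA A' → A' < B' → (B' : ℝ) ≤ B → OneOk sc r₀ Λ A' B' →
      g ∈ Set.Ioo (A' : ℝ) B' → MvI S f y c r₀ s wh sc g := by
    rw [ae_all_iff]; intro A'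
    rw [ae_all_iff]; intro B'
    by_cases hh : PA A' ∧ A' < B' ∧ (B' : ℝ) ≤ B ∧ OneOk sc r₀ Λ A' B'
    · obtain ⟨hA, hAB, hB, hok⟩ := hh
      have hAB' : (A' : ℝ) < B' := by exact_mod_cast hAB
      have hc := (h A' hA).cut le_rfl hB
      have hlam : (0 : ℝ) < (B' : ℝ) - A' := by linarith
      obtain ⟨-, ⟨d0, d1, d2⟩, -⟩ := hn A' B' hA hAB hB hok
      have hT := rel_one (Q₀ := Qt.fn fun _ _ _ => ()) hc hr hok exs_unit
        (fun _ _ _ => few_fn_self hc.pos) (j := 1) le_rfl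
      filter_upwards [TRelS.ae hc.ne hc.pos hc.B1.le hlam hc.rn hT d2] with g hg _ _ _ _ hgm
      intro e he
      obtain ⟨ρ₁, hρ₁, H⟩ := hg hgm e he
      obtain ⟨ρ, hρ, t1, t2, t3⟩ : ∃ t : ℝ, 0 < t ∧ t ≤ ρ₁ ∧ t ≤ (g - A') / 2 ∧
          t ≤ (B' - g) / 2 := by
        have q1 : 0 < (g - A') / 2 := by linarith [hgm.1]
        have q2 : 0 < (B' - g) / 2 := by linarith [hgm.2]
        exact ⟨min ρ₁ (min ((g - A') / 2) ((B' - g) / 2)), by positivity, min_le_left _ _,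
          (min_le_right _ _).trans (min_le_left _ _), (min_le_right _ _).trans (min_le_right _ _)⟩
      refine ⟨ρ, hρ, fun t ht htρ w v o w1 w2 w3 w4 => ?_⟩
      have w2' : (w : ℝ) ≤ v := by exact_mod_cast w2
      have w3' : (v : ℝ) ≤ o := by exact_mod_cast w3
      have t5 := H t ht (by linarith) w v o w1 w2 w3 w4
      exact (mir_mis hc.pos (hT.mir hc.pos d2 (w := w) (v := v) (o := o) (by linarith) w2 w3
        (by linarith) (by linarith) hc.B1.le)).le t5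
    · refine Eventually.of_forall fun g hA hAB hB hok => absurd ?_ hh
      exact ⟨hA, hAB, hB, hok⟩
  filter_upwards [key] with g hg A hA hgm P Sl hS hsl
  have hΛ0 := (h A hA).Λ0
  obtain ⟨t₀, ht₀, H⟩ := hsl 1 one_pos
  obtain ⟨t, ht, k1, k2, k3, k4⟩ : ∃ t : ℝ, 0 < t ∧ t ≤ t₀ ∧ (Sl + 1) * t ≤ Λ / 4 ∧
      t ≤ g - A ∧ t ≤ B - g := by
    have q1 : 0 < g - A := by linarith [hgm.1]
    have q2 : 0 < B - g := by linarith [hgm.2]
    have q3 : 0 < Λ / (4 * (Sl + 1)) := by positivity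
    refine ⟨min (min t₀ (Λ / (4 * (Sl + 1)))) (min (g - A) (B - g)), by positivity,
      (min_le_left _ _).trans (min_le_left _ _), ?_, (min_le_right _ _).trans (min_le_left _ _),
      (min_le_right _ _).trans (min_le_right _ _)⟩
    have := (min_le_left (min t₀ (Λ / (4 * (Sl + 1)))) (min (g - A) (B - g))).trans
      (min_le_right _ _)
    have h4 : (Sl + 1) * min (min t₀ (Λ / (4 * (Sl + 1)))) (min (g - A) (B - g)) ≤
        (Sl + 1) * (Λ / (4 * (Sl + 1))) := mul_le_mul_of_nonneg_left this (by linarith)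
    refine h4.trans (le_of_eq ?_)
    field_simp
  obtain ⟨A', a1, a2⟩ := exists_rat_btwn (show g - t < g by linarith)
  obtain ⟨B', b1, b2⟩ := exists_rat_btwn (show g < g + t by linarith)
  have hAA : A ≤ A' := by
    have : (A : ℝ) ≤ A' := by linarith
    exact_mod_cast this
  have hAB : A' < B' := by
    have : (A' : ℝ) < B' := by linarith
    exact_mod_cast this
  refine hg A' B' (hP A A' hA hAA) hAB (by linarith) ⟨Λ / 4, by linarith, fun w o w1 w2 w3 => ?_⟩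
    ⟨a2, b1⟩
  have w2' : (w : ℝ) ≤ o := by exact_mod_cast w2
  have e1 : |(w : ℝ) - g| ≤ t := by
    rw [abs_le]
    constructor <;> linarith
  have e2 : |(o : ℝ) - g| ≤ t := by
    rw [abs_le]
    constructor <;> linarith
  have f1 := abs_le.1 (H w (e1.trans k1))
  have f2 := abs_le.1 (H o (e2.trans k1))
  have g1 := abs_le.1 e1
  have g2 := abs_le.1 e2
  have h1 : Sl * ((o : ℝ) - w) ≤ Sl * (2 * t) :=
    mul_le_mul_of_nonneg_left (by linarith [g1.1, g2.2]) (by linarith)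
  linarith [f1.1, f2.2]

/-! ### Fewer digits of the far quantity -/

/-- The far quantity can be replaced by one which is few bits given it. -/
theorem MIw.far
    (hpos : ∀ (τ : ℝ) (J : ℕ) (F : Fam m J) (A : F.Ω → Prop), S.St τ J F A → 0 < Pe F.p A)
    {w v : ℝ} {Qa' : Qt m U} {Qa : Qt m U₁} {Qn : Qt m U'} {ε : ℝ}
    (h : MIw S f y w v Qa' Qn ε) (xa : Exs S Qa') (a1 : Few S f (vg w) y Qa' Qa) :
    MIw S f y w v Qa Qn ε := by
  intro c hc
  obtain ⟨d, hd⟩ : ∃ d, d = c / 2 := ⟨_, rfl⟩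
  have hd0 : 0 < d := by rw [hd]; positivity
  obtain ⟨k1, hk1, e1, he1, H1⟩ := h d hd0
  obtain ⟨e2, he2, H2⟩ := a1.mx hpos d hd0
  obtain ⟨e₀, he₀, l1, l2⟩ : ∃ e₀ : ℝ, 0 < e₀ ∧ e₀ ≤ e1 ∧ e₀ ≤ e2 :=
    ⟨min e1 e2, lt_min he1 he2, min_le_left _ _, min_le_right _ _⟩
  obtain ⟨k, hk, m1, m2⟩ : ∃ k : ℝ, 0 < k ∧ k ≤ k1 ∧ k ≤ d / 2 :=
    ⟨min k1 (d / 2), by positivity, min_le_left _ _, min_le_right _ _⟩
  obtain ⟨K₁, M₁, hxa⟩ := xa e₀ he₀
  refine ⟨k, hk, e₀, he₀, fun K => ?_⟩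
  obtain ⟨K', q0, q1⟩ : ∃ K' : ℕ, K ≤ K' ∧ K₁ ≤ K' := ⟨max K K₁, le_max_left _ _, le_max_right _ _⟩
  refine Bas.mono 0 (((H1 K').and (H2 K')).and (hxa.and (pos_bas hpos))) ?_
  rintro J - F A ⟨⟨H1, H2⟩, ⟨a', ha', -⟩, hA⟩ V₁ V₂ z zv hz hzv a n ha hn
  have hp := (isLaw_cond F.isLaw hA).nonneg
  have b1 := H1 V₁ V₂ z zv (hz.le' m1) (hzv.le' m1) a' n (Qa'.mono q1 l1 ha') (Qn.mono q0 l1 hn)
  have b2 := H2 V₁ z (hz.le' m2) a' a (Qa'.mono q1 l2 ha') (Qa.mono q0 l2 ha)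
  rw [MI_eq hp] at b1 ⊢
  have c1 := CH_le_add hp zv a (fun ω => (a' ω, (n ω, (z ω, y J F ω))))
  have c2 : CH (Pool.Agent.H49.Ent.cond F.p A True) zv
      (fun ω => (a ω, (a' ω, (n ω, (z ω, y J F ω))))) ≤
      CH (Pool.Agent.H49.Ent.cond F.p A True) zv (fun ω => (a ω, (n ω, (z ω, y J F ω)))) :=
    CH_mono_cond hp fun ω ω' _ _ hh => by
      simp only [Prod.mk.injEq] at hh ⊢
      exact ⟨hh.1, hh.2.2.1, hh.2.2.2.1, hh.2.2.2.2⟩
  have c3 : CH (Pool.Agent.H49.Ent.cond F.p A True) a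
      (fun ω => (a' ω, (n ω, (z ω, y J F ω)))) ≤
      CH (Pool.Agent.H49.Ent.cond F.p A True) a (fun ω => (a' ω, (z ω, y J F ω))) :=
    CH_mono_cond hp fun ω ω' _ _ hh => by
      simp only [Prod.mk.injEq] at hh ⊢
      exact ⟨hh.1, hh.2.2.1, hh.2.2.2⟩
  have e1 : (ε + c) * (J : ℝ) = (ε + d) * J + d * J := by rw [hd]; ring
  linarith

/-- Another side information: a function of `y` and of `Z` which knows `y`. -/
theorem MIw.ykZ
    (hpos : ∀ (τ : ℝ) (J : ℕ) (F : Fam m J) (A : F.Ω → Prop), S.St τ J F A → 0 < Pe F.p A)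
    (pt : ∀ (J : ℕ) (F : Fam m J), ∃ φ : α J F → PtT F, ∀ ω, ptr F J ω = φ (f J F ω))
    {I : Finset (Fin m)} {p₀ lam : ℝ} {γ' : ∀ J : ℕ, Fam m J → Type}
    {y' : ∀ (J : ℕ) (F : Fam m J), F.Ω → γ' J F} (hy : YkZ I p₀ lam y') (hkn : Kn I p₀ lam y')
    {w v : ℝ} {Qa : Qt m U} {Qn : Qt m U'} {ε : ℝ}
    (h : MIw S f (yT I p₀ lam) w v Qa Qn ε) : MIw S f y' w v Qa Qn ε := by
  intro c hc
  obtain ⟨d, hd⟩ : ∃ d, d = c / 2 := ⟨_, rfl⟩
  have hd0 : 0 < d := by rw [hd]; positivity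
  obtain ⟨k1, hk1, e₀, he₀, H⟩ := h d hd0
  obtain ⟨k, hk, m1, m2⟩ : ∃ k : ℝ, 0 < k ∧ k ≤ k1 ∧ k ≤ d :=
    ⟨min k1 d, by positivity, min_le_left _ _, min_le_right _ _⟩
  refine ⟨k, hk, e₀, he₀, fun K => Bas.mono 0 ((H K).and (pos_bas hpos)) ?_⟩
  rintro J - F A' ⟨H, hA⟩ V₁ V₂ z zv hz hzv a n ha hn
  have hJ0 : (0 : ℝ) ≤ J := Nat.cast_nonneg J
  have hp := (isLaw_cond F.isLaw hA).nonneg
  obtain ⟨ψ, hψ⟩ := hy J F
  obtain ⟨φ, hφ⟩ := hkn J F
  have q1 := H V₁ V₂ z zv (hz.le' m1) (hzv.le' m1) a n ha hn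
  have q2 : CH (Pool.Agent.H49.Ent.cond F.p A' True) F.Z z ≤ d * J :=
    (hz.2 _ F.Z (cl2_Z pt w J F A')).trans (mul_le_mul_of_nonneg_right m2 hJ0)
  rw [MI_eq' hp] at q1 ⊢
  have r1 : CH (Pool.Agent.H49.Ent.cond F.p A' True) a (fun ω => (n ω, (z ω, y' J F ω))) ≤
      CH (Pool.Agent.H49.Ent.cond F.p A' True) a
        (fun ω => (n ω, (z ω, yT I p₀ lam J F ω))) := CH_mono_cond hp fun ω ω' _ _ hh => by
    simp only [Prod.mk.injEq] at hh ⊢
    refine ⟨hh.1, hh.2.1, ?_⟩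
    unfold yT
    rw [← hφ ω, ← hφ ω', hh.2.2]
  have r2 := CH_le_add hp a F.Z (fun ω => (zv ω, (n ω, (z ω, yT I p₀ lam J F ω))))
  have r3 : CH (Pool.Agent.H49.Ent.cond F.p A' True) F.Z
      (fun ω => (zv ω, (n ω, (z ω, yT I p₀ lam J F ω)))) ≤
      CH (Pool.Agent.H49.Ent.cond F.p A' True) F.Z z := CH_mono_cond hp fun ω ω' _ _ hh => by
    simp only [Prod.mk.injEq] at hh
    exact hh.2.2.1
  have r4 : CH (Pool.Agent.H49.Ent.cond F.p A' True) a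
      (fun ω => (F.Z ω, (zv ω, (n ω, (z ω, yT I p₀ lam J F ω))))) ≤
      CH (Pool.Agent.H49.Ent.cond F.p A' True) a
        (fun ω => (zv ω, (n ω, (z ω, y' J F ω)))) := CH_mono_cond hp fun ω ω' _ _ hh => by
    rw [hψ ω, hψ ω']
    simp only [Prod.mk.injEq] at hh ⊢
    refine ⟨hh.2.1, hh.2.2.1, hh.2.2.2.1, ?_⟩
    rw [hh.1, hh.2.2.2.2]
  have e1 : (ε + c) * (J : ℝ) = (ε + d) * J + d * J := by rw [hd]; ring
  linarith

/-! ### Real windows -/

/-- **No look-ahead at the velocity**: `w` in `G`, the record at `j`, the velocity to `a` and `a'`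
digits behind its level, over the labels of `w`. -/
def MvG (S : PCl m) (f : ∀ (J : ℕ) (F : Fam m J), F.Ω → α J F)
    (y : ∀ (J : ℕ) (F : Fam m J), F.Ω → γ J F) (c : ℕ → Fin m) (r₀ : ℕ)
    (sn : ℝ → ℕ → ℝ) (G : Set ℝ) (Sl g e κ C : ℝ) : Prop :=
  ∃ ρ : ℝ, 0 < ρ ∧ ∀ R : ℝ, 0 < R → R < ρ → ∀ w ∈ G, ∀ j : ℝ, g - R ≤ w → w ≤ j → j ≤ g + R →
    ∀ a a' : ℝ, (Sl - 1) * (j - w) + κ * R ≤ a → a ≤ a' → a' ≤ C * R →
    MIw S f y w j (qJet m ((range r₀).image c) (c r₀) 1 w (sn w r₀) (sn w r₀ - w + a'))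
      (qJet m ((range r₀).image c) (c r₀) 1 w (sn w r₀) (sn w r₀ - w + a)) (e * R)

theorem exs1 (h : GCh S f y c r₀ r s A B Λ sn G) (hr : r₀ ≤ r) {u : ℝ} (hu : u ∈ G) (hA : A ≤ u)
    (hB : u < B) (N : ℝ) : Exs S (qJet m ((range r₀).image c) (c r₀) 1 u (sn u r₀) N) := by
  rcases hr.eq_or_lt with e | e
  · subst e
    exact (h.att u hu hA hB).exs _
  · obtain ⟨u₁, rd, h1, h2⟩ := h.ch u hu hA hB
    exact exs_jet (h1 r₀ le_rfl e) (h2.att r₀ le_rfl e)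

/-- The change of the windows, for given indices. -/
theorem mv_win (h : GCh S f y c r₀ r s A B Λ sn G) (hr : r₀ ≤ r) {w j : ℝ} (hw : w ∈ G)
    (hwA : A ≤ w) (hwB : w < B) (hwj : w ≤ j) {q v o : ℚ} (hq : PG G A s q)
    (qA : A < (q : ℝ) + s) (hqw : (q : ℝ) + s ≤ w) (hjv : j ≤ (v : ℝ) + s) (hvo : v ≤ o)
    (hoB : (o : ℝ) + s < B) {a a' ε σ₀ : ℝ} (hσ : 0 < σ₀)
    (h1 : scG sn G A s v r₀ - whG G A s v ≤ sn w r₀ - w + a) (h2 : a ≤ a')
    (h3 : sn w r₀ - w + a' ≤ scG sn G A s o r₀ - whG G A s o)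
    (h4 : scG sn G A s o r₀ + σ₀ ≤ scG sn G A s q r₀ + Λ)
    (h5 : w ≤ whG G A s o)
    (H : MIs S f y s q v (fam m c r₀ 1 (whG G A s) (scG sn G A s) q o)
      (fam m c r₀ 1 (whG G A s) (scG sn G A s) q v) ε) :
    MIw S f y w j (qJet m ((range r₀).image c) (c r₀) 1 w (sn w r₀) (sn w r₀ - w + a'))
      (qJet m ((range r₀).image c) (c r₀) 1 w (sn w r₀) (sn w r₀ - w + a)) ε := by
  have hB1 := h.B1
  have hvo' : (v : ℝ) ≤ o := by exact_mod_cast hvo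
  obtain ⟨u1, u2, u3⟩ := fl_mem h.cl hq
  have hqv' : (q : ℝ) ≤ v := by linarith
  obtain ⟨v1, v2, v3⟩ := fl_mem h.cl (hq.mono (by exact_mod_cast hqv'))
  obtain ⟨x1, x2, x3⟩ := fl_mem h.cl (hq.mono (q := o) (by
    have : (q : ℝ) ≤ o := by linarith
    exact_mod_cast this))
  have e0 : fl G A ((q : ℝ) + s) = whG G A s q := rfl
  have e1 : fl G A ((v : ℝ) + s) = whG G A s v := rfl
  have e2 : fl G A ((o : ℝ) + s) = whG G A s o := rfl
  rw [e0] at u1 u2 u3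
  rw [e1] at v1 v2 v3
  rw [e2] at x1 x2 x3
  have huw : whG G A s q ≤ w := u3.trans hqw
  have l1 : scG sn G A s q r₀ ≤ sn w r₀ := h.mono' le_rfl hr u1 hw u2 huw hwB
  have l2 : sn w r₀ ≤ scG sn G A s o r₀ := h.mono' le_rfl hr hw x1 hwA h5 (by linarith)
  have l3 : whG G A s q ≤ whG G A s o := huw.trans h5
  have lmin : min (scG sn G A s q r₀) (sn w r₀) = scG sn G A s q r₀ := min_eq_left l1
  have lmin' : min (sn w r₀) (scG sn G A s q r₀) = scG sn G A s q r₀ := min_eq_right l1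
  have n1 : ∀ p : ℚ, natD r₀ (whG G A s) (scG sn G A s) p 1 =
      scG sn G A s p r₀ - whG G A s p := fun p => by
    unfold natD
    push_cast
    ring
  obtain ⟨ηq, hηq⟩ := h.rn q qA (by linarith)
  obtain ⟨ηv, hηv⟩ := h.rn v (by linarith) (by linarith)
  -- the far quantity over the labels of `u`
  have x0 : ∀ p : ℚ, Exs S (fam m c r₀ 1 (whG G A s) (scG sn G A s) q p) := fun p =>
    exs1 h hr u1 u2 (huw.trans_lt hwB) _
  have f1 : Few S f (vg w) y (fam m c r₀ 1 (whG G A s) (scG sn G A s) q o)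
      (fam m c r₀ 1 (whG G A s) (scG sn G A s) q o) := by
    unfold fam
    refine h.jet_one hr hw hwA hwB huw huw hσ le_rfl ?_
    rw [min_self, n1]
    push_cast
    linarith
  have f2 : Few S f (vg w) y
      (qJet m ((range r₀).image c) (c r₀) 1 w (sn w r₀) (sn w r₀ - w + a))
      (fam m c r₀ 1 (whG G A s) (scG sn G A s) q v) := by
    unfold fam
    refine h.jet_one hr hw hwA hwB le_rfl huw hσ (by rw [n1]; exact h1) ?_
    rw [lmin', n1]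
    push_cast
    linarith
  have f3 : Few S f (vg w) y (fam m c r₀ 1 (whG G A s) (scG sn G A s) q o)
      (qJet m ((range r₀).image c) (c r₀) 1 w (sn w r₀) (sn w r₀ - w + a)) := by
    unfold fam
    refine h.jet_one hr hw hwA hwB huw le_rfl hσ (by rw [n1]; linarith) ?_
    rw [lmin]
    push_cast
    linarith
  have f4 : Few S f (vg w) y (fam m c r₀ 1 (whG G A s) (scG sn G A s) q o)
      (qJet m ((range r₀).image c) (c r₀) 1 w (sn w r₀) (sn w r₀ - w + a')) := by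
    unfold fam
    refine h.jet_one hr hw hwA hwB huw le_rfl hσ (by rw [n1]; linarith) ?_
    rw [lmin]
    push_cast
    linarith
  have key := MIw.conv h.pos (w' := (q : ℝ) + s) (w := w) (v := j) (v' := (v : ℝ) + s) hqw hwj
    hjv (by linarith) hηq hηv H.w (x0 o) (x0 v) f1 f1 (few_d f2) f3
  rw [add_zero] at key
  exact MIw.far h.pos key (x0 o) f4

/-- **Real windows**, from the indices. -/
theorem mv_box (h : GCh S f y c r₀ r s A B Λ sn G) (hr : r₀ ≤ r) {g : ℝ} (hgA : A < g)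
    (hgB : g < B) {Sl : ℕ → ℝ} (hS : SlpG sn r₀ r G g Sl) (h1 : 1 < Sl r₀)
    (H : MvI S f y c r₀ s (whG G A s) (scG sn G A s) (g - s)) {e κ C : ℝ} (he : 0 < e)
    (hκ : 0 < κ) (hC : 0 < C) : MvG S f y c r₀ sn G (Sl r₀) g e κ C := by
  have hΛ := h.Λ0
  obtain ⟨D, hD⟩ : ∃ D, D = Sl r₀ - 1 := ⟨_, rfl⟩
  have hD0 : 0 < D := by linarith
  obtain ⟨X, hX⟩ : ∃ X, X = (C + 1) / D + 2 := ⟨_, rfl⟩
  have hq0 : 0 < (C + 1) / D := by positivity
  have hX2 : 2 < X := by linarith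
  have hDX : C + 1 ≤ D * X := by
    have : D * X = C + 1 + 2 * D := by
      rw [hX]
      field_simp
    linarith
  obtain ⟨T, hT⟩ : ∃ T, T = 2 * (X + 1) := ⟨_, rfl⟩
  have hT6 : 6 < T := by linarith
  have hT0 : 0 < T := by linarith
  obtain ⟨η, hη, η1, η2, η3⟩ : ∃ η : ℝ, 0 < η ∧ η ≤ 1 / 4 ∧ (D + 1) * η * T ≤ κ ∧ η * T ≤ 1 := by
    refine ⟨min (1 / 4) (min (κ / ((D + 1) * T)) (1 / T)), by positivity, min_le_left _ _, ?_, ?_⟩
    · have h2 := (min_le_right (1 / 4 : ℝ) (min (κ / ((D + 1) * T)) (1 / T))).trans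
        (min_le_left _ _)
      have h3 : (D + 1) * T * min (1 / 4) (min (κ / ((D + 1) * T)) (1 / T)) ≤
          (D + 1) * T * (κ / ((D + 1) * T)) := mul_le_mul_of_nonneg_left h2 (by positivity)
      have h4 : (D + 1) * T * (κ / ((D + 1) * T)) = κ := by field_simp
      linarith
    · have h2 := (min_le_right (1 / 4 : ℝ) (min (κ / ((D + 1) * T)) (1 / T))).trans
        (min_le_right _ _)
      have h3 : T * min (1 / 4) (min (κ / ((D + 1) * T)) (1 / T)) ≤ T * (1 / T) :=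
        mul_le_mul_of_nonneg_left h2 hT0.le
      have h4 : T * (1 / T) = 1 := by field_simp
      linarith
  obtain ⟨ρ₁, hρ₁, H1⟩ := H (e / T) (by positivity)
  obtain ⟨ρ₂, hρ₂, H2⟩ := hS.wnd (s := s) h.cl hgA hη (by linarith)
  obtain ⟨ρ₃, hρ₃, H3⟩ := hS.sl r₀ le_rfl hr η hη
  obtain ⟨ρ, hρ, t1, t2, t3, t4, t5, t6⟩ : ∃ ρ : ℝ, 0 < ρ ∧ T * ρ ≤ ρ₁ ∧ T * ρ ≤ ρ₂ ∧
      T * ρ ≤ ρ₃ ∧ T * ρ ≤ (g - A) / 4 ∧ T * ρ ≤ (B - g) / 4 ∧ (2 * Sl r₀ + 1) * (T * ρ) ≤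
      Λ / 2 := by
    have q2 : 0 < (g - A) / 4 := by linarith
    have q3 : 0 < (B - g) / 4 := by linarith
    have q4 : 0 < Λ / 2 / (2 * Sl r₀ + 1) := by positivity
    obtain ⟨x, hx⟩ : ∃ x, x = min (min ρ₁ ρ₂) (min (min ρ₃ (Λ / 2 / (2 * Sl r₀ + 1)))
      (min ((g - A) / 4) ((B - g) / 4))) := ⟨_, rfl⟩
    have hx0 : 0 < x := by rw [hx]; positivity
    have k1 : x ≤ ρ₁ := by rw [hx]; exact (min_le_left _ _).trans (min_le_left _ _)
    have k2 : x ≤ ρ₂ := by rw [hx]; exact (min_le_left _ _).trans (min_le_right _ _)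
    have k3 : x ≤ ρ₃ := by
      rw [hx]
      exact (min_le_right _ _).trans ((min_le_left _ _).trans (min_le_left _ _))
    have k4 : x ≤ Λ / 2 / (2 * Sl r₀ + 1) := by
      rw [hx]
      exact (min_le_right _ _).trans ((min_le_left _ _).trans (min_le_right _ _))
    have k5 : x ≤ (g - A) / 4 := by
      rw [hx]
      exact (min_le_right _ _).trans ((min_le_right _ _).trans (min_le_left _ _))
    have k6 : x ≤ (B - g) / 4 := by
      rw [hx]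
      exact (min_le_right _ _).trans ((min_le_right _ _).trans (min_le_right _ _))
    have e1 : T * (x / T) = x := by field_simp
    refine ⟨x / T, by positivity, by rw [e1]; exact k1, by rw [e1]; exact k2, by rw [e1]; exact k3,
      by rw [e1]; exact k5, by rw [e1]; exact k6, ?_⟩
    rw [e1]
    rw [le_div_iff₀ (by positivity)] at k4
    linarith
  refine ⟨ρ, hρ, fun R hR hRρ w hw j w1 w2 w3 a a' a1 a2 a3 => ?_⟩
  obtain ⟨t, ht⟩ : ∃ t, t = T * R := ⟨_, rfl⟩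
  have ht0 : 0 < t := by rw [ht]; positivity
  have htρ : t < T * ρ := by
    rw [ht]
    exact mul_lt_mul_of_pos_left hRρ hT0
  have htR : 6 * R < t := by
    rw [ht]
    exact mul_lt_mul_of_pos_right hT6 hR
  have hηt0 : 0 < η * t := by positivity
  have hηt : η * t ≤ 1 / 4 * t := mul_le_mul_of_nonneg_right η1 ht0.le
  have hηR : η * t ≤ R := by
    rw [ht, ← mul_assoc]
    exact mul_le_of_le_one_left hR.le η3
  have hηκ : (D + 1) * (η * t) ≤ κ * R := by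
    have e1 : (D + 1) * (η * t) = (D + 1) * η * T * R := by rw [ht]; ring
    rw [e1]
    exact mul_le_mul_of_nonneg_right η2 hR.le
  have hXR : 2 * R < X * R := mul_lt_mul_of_pos_right hX2 hR
  have htX : t = 2 * (X * R) + 2 * R := by rw [ht, hT]; ring
  -- the indices
  obtain ⟨q, q1, q2⟩ := exists_rat_btwn (show w - s - η * t < w - s by linarith)
  obtain ⟨v, v1, v2⟩ := exists_rat_btwn (show j - s < j - s + η * t by linarith)
  obtain ⟨o, o1, o2⟩ := exists_rat_btwn (show w - s + X * R + η * t <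
    w - s + X * R + 2 * (η * t) by linarith)
  have hvo : v ≤ o := by
    have : (v : ℝ) ≤ o := by linarith
    exact_mod_cast this
  have hqv : q ≤ v := by
    have : (q : ℝ) ≤ v := by linarith
    exact_mod_cast this
  obtain ⟨b1, b2, b3, b4, b5⟩ := H2 t ht0 (by linarith) q (by linarith) (by linarith)
  obtain ⟨c1, c2, c3, c4, -⟩ := H2 t ht0 (by linarith) v (by linarith) (by linarith)
  obtain ⟨d1, d2, d3, d4, -⟩ := H2 t ht0 (by linarith) o (by linarith) (by linarith)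
  have hA : A ≤ w := by linarith
  have g1 : w ≤ whG G A s v := le_fl hw hA (by linarith)
  have g2 : w + X * R ≤ whG G A s o := by linarith
  have s1 := (abs_le.1 (H3 t ht0 (by linarith) w hw _ c1 (by linarith) g1 (by linarith))).2
  have s2 := (abs_le.1 (H3 t ht0 (by linarith) w hw _ d1 (by linarith) (by linarith)
    (by linarith))).1
  have s3 := (abs_le.1 (H3 t ht0 (by linarith) _ b1 _ d1 (by linarith) (by linarith)
    (by linarith))).2
  have m1 : D * (whG G A s v - w) ≤ D * (j - w + η * t) :=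
    mul_le_mul_of_nonneg_left (by linarith) hD0.le
  have m2 : D * (X * R) ≤ D * (whG G A s o - w) := mul_le_mul_of_nonneg_left (by linarith) hD0.le
  have m3 : (C + 1) * R ≤ D * (X * R) := by
    rw [← mul_assoc]
    exact mul_le_mul_of_nonneg_right hDX hR.le
  have m4 : Sl r₀ * (whG G A s o - whG G A s q) ≤ Sl r₀ * (2 * t) :=
    mul_le_mul_of_nonneg_left (by linarith) (by linarith)
  have m5 : (2 * Sl r₀ + 1) * t ≤ Λ / 2 :=
    (mul_le_mul_of_nonneg_left htρ.le (by linarith)).trans t6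
  have e1 : Sl r₀ = D + 1 := by linarith
  have e2 : e / T * t = e * R := by rw [ht]; field_simp
  have key := H1 t ht0 (by linarith) q v o (by linarith) hqv hvo (by linarith)
  rw [e2] at key
  refine mv_win h hr hw hA (by linarith) w2 b5 (by linarith) (by linarith) (by linarith) hvo
    (by linarith) (σ₀ := Λ / 2) (by linarith) ?_ a2 ?_ ?_ (by linarith) key
  · show sn (whG G A s v) r₀ - whG G A s v ≤ sn w r₀ - w + a
    rw [e1] at s1 a1
    have e3 : (D + 1) * (whG G A s v - w) = D * (whG G A s v - w) + (whG G A s v - w) := by ring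
    have e4 : D * (j - w + η * t) = D * (j - w) + D * (η * t) := by ring
    have e5 : (D + 1) * (η * t) = D * (η * t) + η * t := by ring
    have e6 : (D + 1 - 1) * (j - w) = D * (j - w) := by ring
    linarith
  · show sn w r₀ - w + a' ≤ sn (whG G A s o) r₀ - whG G A s o
    rw [e1] at s2
    have e3 : (D + 1) * (whG G A s o - w) = D * (whG G A s o - w) + (whG G A s o - w) := by ring
    linarith
  · show sn (whG G A s o) r₀ + Λ / 2 ≤ sn (whG G A s q) r₀ + Λ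
    linarith

theorem MvG.sub {S' : PCl m} (hs : ∀ (τ : ℝ) (J : ℕ) (F : Fam m J) (A : F.Ω → Prop),
    S'.St τ J F A → S.St τ J F A) {Sl g e κ C : ℝ} (h : MvG S f y c r₀ sn G Sl g e κ C) :
    MvG S' f y c r₀ sn G Sl g e κ C := by
  obtain ⟨ρ, hρ, H⟩ := h
  exact ⟨ρ, hρ, fun R hR hRρ w hw j w1 w2 w3 a a' a1 a2 a3 =>
    (H R hR hRρ w hw j w1 w2 w3 a a' a1 a2 a3).sub hs⟩

/-- **The record does not look ahead at the velocity of the place `r₀`**: almost every `g`, all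
parameters at once, all side informations over the near path of the base. -/
theorem mv_ae (h : GCh S f y c r₀ r s A B Λ sn G) (hr : r₀ ≤ r)
    (hV : VNumA S f c r₀ s A B Λ sn G) :
    ∀ᵐ g : ℝ, ∀ Sl : ℕ → ℝ, SlpG sn r₀ r G g Sl → 1 < Sl r₀ →
      ∀ A₁ B₁ Λ₁ p₀ lam : ℚ, IxV A B Λ A₁ B₁ Λ₁ p₀ lam → (A₁ : ℝ) < g → g < B₁ →
      ∀ (γ' : ∀ J : ℕ, Fam m J → Type) (y' : ∀ (J : ℕ) (F : Fam m J), F.Ω → γ' J F),
        YkZ ((range r₀).image c) p₀ lam y' → Kn ((range r₀).image c) p₀ lam y' →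
      ∀ e κ C : ℝ, 0 < e → 0 < κ → 0 < C → MvG S f y' c r₀ sn G (Sl r₀) g e κ C := by
  have key : ∀ᵐ g : ℝ, ∀ x : {x : ℚ × ℚ × ℚ × ℚ × ℚ //
      IxV A B Λ x.1 x.2.1 x.2.2.1 x.2.2.2.1 x.2.2.2.2}, ∀ A' : ℚ, PG G x.1.1 s A' →
      g - s ∈ Set.Ioo (A' : ℝ) (x.1.2.1 - s) → ∀ P Sl : ℝ, 1 < Sl →
      SlP (fun q => scG sn G x.1.1 s q r₀) (g - s) P Sl →
      MvI S f (yT ((range r₀).image c) x.1.2.2.2.1 x.1.2.2.2.2) c r₀ s (whG G x.1.1 s)
        (scG sn G x.1.1 s) (g - s) := by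
    rw [ae_all_iff]
    intro x
    have hx := x.2
    have hc := (gch_cut h hx.hA hx.hB hx.h0 hx.hΛ).yT (p₀ := x.1.2.2.2.1) (lam' := x.1.2.2.2.2)
      hx.p1 hx.pm hx.p0
    exact ae_shift (mvI_ae (PA := PG G x.1.1 s) (fun _ hA' => hc.nch hA') (fun _ _ => PG.mono)
      (hV _ _ _ _ _ hx) hr) s
  filter_upwards [key] with g hg Sl hS h1 A₁ B₁ Λ₁ p₀ lam hx g1 g2 γ' y' hy hkn e κ C he hκ hC
  have hc := (gch_cut h hx.hA hx.hB hx.h0 hx.hΛ).yT (p₀ := p₀) (lam' := lam) hx.p1 hx.pm hx.p0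
  -- a point of `G` before `g`
  obtain ⟨A', b0, b1⟩ : ∃ A' : ℚ, PG G A₁ s A' ∧ (A' : ℝ) < g - s := by
    obtain ⟨ρ₀, hρ₀, H₀⟩ := hS.gap 1 one_pos
    obtain ⟨t, ht, ht1, ht2⟩ : ∃ t : ℝ, 0 < t ∧ t < ρ₀ ∧ 2 * t < g - A₁ :=
      ⟨min (ρ₀ / 2) ((g - A₁) / 4), lt_min (by positivity) (by linarith),
        (min_le_left _ _).trans_lt (by linarith), by
          linarith [min_le_right (ρ₀ / 2) ((g - A₁) / 4)]⟩
    obtain ⟨u₀, hu₀, u1, u2⟩ := H₀ t ht ht1 (g - t) le_rfl (by linarith)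
    obtain ⟨A', b1, b2⟩ := exists_rat_btwn (show u₀ - s < g - s by linarith)
    exact ⟨A', ⟨u₀, hu₀, by linarith, by linarith⟩, b2⟩
  have t1 := hg ⟨(A₁, B₁, Λ₁, p₀, lam), hx⟩ A' b0 ⟨b1, by
    show g - s < (B₁ : ℝ) - s
    linarith⟩ _ _ h1 (hS.slP (s := s) h.cl g1 hr)
  obtain ⟨ρ, hρ, H⟩ := mv_box hc hr g1 g2 hS h1 t1 he hκ hC
  exact ⟨ρ, hρ, fun R hR hRρ w hw j w1 w2 w3 a a' a1 a2 a3 =>
    MIw.ykZ h.pos h.pt hy hkn (H R hR hRρ w hw j w1 w2 w3 a a' a1 a2 a3)⟩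

end Pool.VF91
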